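import Mathlib

/-!
# A reverse Hölder inequality on trees
-/

set_option autoImplicit false

open Finset

namespace Pool.Agent.T3H29.RH

variable {β ι : Type} [Fintype ι] [Nonempty ι]

/-- mean over the children -/
noncomputable def mean (f : ι → ℝ) : ℝ := (∑ i, f i) / Fintype.card ι

lemma card_pos' : (0 : ℝ) < Fintype.card ι := by exact_mod_cast Fintype.card_pos

lemma one_le_card : (1 : ℝ) ≤ Fintype.card ι := by exact_mod_cast Fintype.card_pos (α := ι)

lemma mean_mono {f g : ι → ℝ} (h : ∀ i, f i ≤ g i) : mean f ≤ mean g :=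
  div_le_div_of_nonneg_right (Finset.sum_le_sum fun i _ => h i) card_pos'.le

lemma mean_add (f g : ι → ℝ) : mean (fun i => f i + g i) = mean f + mean g := by
  unfold mean; rw [Finset.sum_add_distrib, add_div]

lemma mean_const_mul (c : ℝ) (f : ι → ℝ) : mean (fun i => c * f i) = c * mean f := by
  unfold mean; rw [← Finset.mul_sum, mul_div_assoc]

lemma mean_const (c : ℝ) : mean (fun _ : ι => c) = c := by
  unfold mean
  rw [Finset.sum_const, card_univ, nsmul_eq_mul, mul_div_cancel_left₀ _ card_pos'.ne']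

lemma le_mean {f : ι → ℝ} (h : ∀ i, 0 ≤ f i) (i : ι) : f i ≤ Fintype.card ι * mean f := by
  unfold mean
  rw [mul_div_cancel₀ _ card_pos'.ne']
  exact Finset.single_le_sum (fun j _ => h j) (mem_univ i)

variable (ch : β → ι → β)

/-- average over the `n`-th generation -/
noncomputable def avg : ℕ → (β → ℝ) → β → ℝ
  | 0, g, b => g b
  | n + 1, g, b => mean fun i => avg n g (ch b i)

/-- average over the `n`-th generation of a function of the running maximum (started at `s`) and of
the terminal value -/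
noncomputable def run (z : β → ℝ) (F : ℝ → ℝ → ℝ) : ℕ → β → ℝ → ℝ
  | 0, b, s => F (max s (z b)) (z b)
  | n + 1, b, s => mean fun i => run z F n (ch b i) (max s (z b))

variable {ch}

lemma avg_mono {g h : β → ℝ} (H : ∀ b, g b ≤ h b) (n : ℕ) (b : β) : avg ch n g b ≤ avg ch n h b := by
  induction n generalizing b with
  | zero => exact H b
  | succ n ih => exact mean_mono fun i => ih _

lemma avg_self {g : β → ℝ} (H : ∀ b, g b = mean fun i => g (ch b i)) (n : ℕ) (b : β) :
    avg ch n g b = g b := by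
  induction n generalizing b with
  | zero => rfl
  | succ n ih =>
    rw [avg, H b]
    congr 1; funext i
    exact ih _

/-! ### Doob's inequality -/

section Doob

/-- Burkholder's function -/
noncomputable def UU (p m x : ℝ) : ℝ := p * m ^ (p - 1) * (m - p / (p - 1) * x)

/-- Young's inequality in the form used here -/
lemma young' {p m x : ℝ} (hp : 1 < p) (hm : 0 ≤ m) (hx : 0 ≤ x) :
    p * (m ^ (p - 1) * x) ≤ (p - 1) * m ^ p + x ^ p := by
  have hpq : (p / (p - 1)).HolderConjugate p := (Real.HolderConjugate.conjExponent hp).symm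
  have h := Real.young_inequality_of_nonneg (Real.rpow_nonneg hm (p - 1)) hx hpq
  have e1 : (m ^ (p - 1)) ^ (p / (p - 1)) = m ^ p := by
    rw [← Real.rpow_mul hm]
    congr 1
    have : p - 1 ≠ 0 := by linarith
    field_simp
  rw [e1] at h
  have hp0 : 0 < p := by linarith
  have hp1 : p - 1 ≠ 0 := by linarith
  have h2 := mul_le_mul_of_nonneg_left h hp0.le
  calc p * (m ^ (p - 1) * x) ≤ p * (m ^ p / (p / (p - 1)) + x ^ p / p) := h2
    _ = (p - 1) * m ^ p + x ^ p := by field_simp

lemma rpow_split {p m : ℝ} (hp : 1 < p) (hm : 0 ≤ m) : m ^ (p - 1) * m = m ^ p := by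
  rcases hm.eq_or_lt with h | h
  · rw [← h, mul_zero, Real.zero_rpow (by linarith)]
  · rw [← Real.rpow_add_one h.ne']; congr 1; ring

lemma UU_terminal {p m x : ℝ} (hp : 1 < p) (hm : 0 ≤ m) (hx : 0 ≤ x) :
    m ^ p ≤ (p / (p - 1)) ^ p * x ^ p + UU p m x := by
  have hp1 : 0 < p - 1 := by linarith
  have h := young' hp hm (mul_nonneg (by positivity : 0 ≤ p / (p - 1)) hx)
  rw [Real.mul_rpow (by positivity) hx] at h
  unfold UU
  have e : p * m ^ (p - 1) * (m - p / (p - 1) * x) = p * m ^ p - p * (m ^ (p - 1) * (p / (p - 1) * x)) := by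
    rw [← rpow_split hp hm]; ring
  rw [e]
  linarith

lemma UU_self {p x : ℝ} (hp : 1 < p) (hx : 0 ≤ x) : UU p x x = - (p / (p - 1)) * x ^ p := by
  unfold UU
  have hp1 : p - 1 ≠ 0 := by linarith
  have e : p * x ^ (p - 1) * (x - p / (p - 1) * x) = p * (1 - p / (p - 1)) * (x ^ (p - 1) * x) := by ring
  rw [e, rpow_split hp hx]
  field_simp
  ring

lemma UU_step {p m x : ℝ} (hp : 1 < p) (hm : 0 ≤ m) (hx : 0 ≤ x) :
    UU p (max m x) x ≤ p * m ^ (p - 1) * m - p * m ^ (p - 1) * (p / (p - 1)) * x := by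
  have hp1 : 0 < p - 1 := by linarith
  rcases le_total x m with h | h
  · rw [max_eq_left h, UU]
    apply le_of_eq; ring
  · rw [max_eq_right h, UU_self hp hx]
    have hy := young' hp hm hx
    have e1 : p * m ^ (p - 1) * m = p * m ^ p := by rw [← rpow_split hp hm]; ring
    rw [e1]
    have h2 := mul_le_mul_of_nonneg_left hy (by positivity : 0 ≤ p / (p - 1))
    have e2 : p / (p - 1) * ((p - 1) * m ^ p + x ^ p) = p * m ^ p + p / (p - 1) * x ^ p := by
      field_simp
    rw [e2] at h2
    linarith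

lemma doob_aux {x : β → ℝ} (hx0 : ∀ b, 0 ≤ x b) (hx : ∀ b, x b = mean fun i => x (ch b i)) {p : ℝ}
    (hp : 1 < p) (n : ℕ) (b : β) {s : ℝ} (hs : 0 ≤ s) :
    run ch x (fun m _ => m ^ p) n b s ≤
      (p / (p - 1)) ^ p * avg ch n (fun b => x b ^ p) b + UU p (max s (x b)) (x b) := by
  induction n generalizing b s with
  | zero => exact UU_terminal hp (hs.trans (le_max_left _ _)) (hx0 b)
  | succ n ih =>
    have hm : 0 ≤ max s (x b) := hs.trans (le_max_left _ _)
    calc run ch x (fun m _ => m ^ p) (n + 1) b s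
        ≤ mean fun i => ((p / (p - 1)) ^ p * avg ch n (fun b => x b ^ p) (ch b i) +
            (p * (max s (x b)) ^ (p - 1) * (max s (x b)) +
              -(p * (max s (x b)) ^ (p - 1) * (p / (p - 1))) * x (ch b i))) := by
          apply mean_mono
          intro i
          refine (ih (ch b i) hm).trans ?_
          have := UU_step hp hm (hx0 (ch b i))
          linarith
      _ = (p / (p - 1)) ^ p * avg ch (n + 1) (fun b => x b ^ p) b + UU p (max s (x b)) (x b) := by
          rw [mean_add, mean_add, mean_const_mul, mean_const, mean_const_mul, ← hx b]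
          rw [UU, avg]
          ring

/-- Doob's maximal inequality -/
theorem doob {x : β → ℝ} (hx0 : ∀ b, 0 ≤ x b) (hx : ∀ b, x b = mean fun i => x (ch b i)) {p : ℝ}
    (hp : 1 < p) (n : ℕ) (b : β) :
    run ch x (fun m _ => m ^ p) n b 0 ≤ (p / (p - 1)) ^ p * avg ch n (fun b => x b ^ p) b := by
  refine (doob_aux hx0 hx hp n b le_rfl).trans ?_
  rw [max_eq_right (hx0 b), UU_self hp (hx0 b)]
  have hp1 : 0 < p - 1 := by linarith
  have : 0 ≤ p / (p - 1) * x b ^ p := mul_nonneg (by positivity) (Real.rpow_nonneg (hx0 b) p)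
  linarith

end Doob

/-! ### The self-improvement -/

/-- the scalar inequality -/
lemma scalar {M δ s y : ℝ} (hδ0 : 0 < δ) (hδ1 : δ ≤ 1) (hs : 0 < s) (hsy : s ≤ y) (hy : y ≤ M * s) :
    (y ^ δ - s ^ δ) * y ≤ M * δ * (y ^ (1 + δ) - s ^ (1 + δ)) := by
  have hy0 : 0 < y := hs.trans_le hsy
  set u : ℝ := y / s - 1 with hu
  have hu0 : 0 ≤ u := by rw [hu, sub_nonneg, one_le_div hs]; exact hsy
  have hyu : y = s * (1 + u) := by rw [hu]; field_simp; ring
  have h1 : (1 + u) ^ δ ≤ 1 + δ * u := rpow_one_add_le_one_add_mul_self (by linarith) hδ0.le hδ1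
  have h2 : 1 + (1 + δ) * u ≤ (1 + u) ^ (1 + δ) := one_add_mul_self_le_rpow_one_add (by linarith) (by linarith)
  have e1 : y ^ δ = s ^ δ * (1 + u) ^ δ := by rw [hyu, Real.mul_rpow hs.le (by linarith)]
  have e2 : y ^ (1 + δ) = s ^ (1 + δ) * (1 + u) ^ (1 + δ) := by rw [hyu, Real.mul_rpow hs.le (by linarith)]
  have e3 : s ^ (1 + δ) = s ^ δ * s := by rw [Real.rpow_add hs, Real.rpow_one]; ring
  have hsδ : 0 < s ^ δ := Real.rpow_pos_of_pos hs δ
  have hM : 0 ≤ M := by
    by_contra h
    push Not at h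
    nlinarith
  calc (y ^ δ - s ^ δ) * y ≤ (s ^ δ * (δ * u)) * y := by
        apply mul_le_mul_of_nonneg_right _ hy0.le
        rw [e1]
        nlinarith
    _ ≤ (s ^ δ * (δ * u)) * (M * s) := by
        apply mul_le_mul_of_nonneg_left hy
        positivity
    _ = M * δ * (s ^ δ * s * u) := by ring
    _ ≤ M * δ * (y ^ (1 + δ) - s ^ (1 + δ)) := by
        apply mul_le_mul_of_nonneg_left _ (by positivity)
        rw [e2, e3]
        have h3 : 0 < s ^ δ * s := by positivity
        have h4 : u ≤ (1 + u) ^ (1 + δ) - 1 := by nlinarith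
        nlinarith

section Main

variable {x y : β → ℝ} {p K : ℝ}

lemma run_mono {z : β → ℝ} {F G : ℝ → ℝ → ℝ} (h : ∀ m b, z b ≤ m → 0 ≤ m → F m (z b) ≤ G m (z b)) (n : ℕ) (b : β)
    {s : ℝ} (hs : 0 ≤ s) : run ch z F n b s ≤ run ch z G n b s := by
  induction n generalizing b s with
  | zero => exact h _ _ (le_max_right _ _) (hs.trans (le_max_left _ _))
  | succ n ih => exact mean_mono fun i => ih _ (hs.trans (le_max_left _ _))

lemma run_compare (hK : 0 ≤ K) (hp : 1 < p) (hx0 : ∀ b, 0 ≤ x b) (hyx : ∀ b, y b ≤ (K * x b) ^ p) (n : ℕ) (b : β)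
    {s r : ℝ} (hr : 0 ≤ r) (hsr : s ≤ (K * r) ^ p) :
    run ch y (fun m _ => m) n b s ≤ K ^ p * run ch x (fun m _ => m ^ p) n b r := by
  have key : ∀ b : β, ∀ s r : ℝ, 0 ≤ r → s ≤ (K * r) ^ p → max s (y b) ≤ (K * max r (x b)) ^ p := by
    intro b s r hr hsr
    apply max_le
    · exact hsr.trans (Real.rpow_le_rpow (by positivity) (by gcongr; exact le_max_left _ _) (by linarith))
    · have := hx0 b
      exact (hyx b).trans (Real.rpow_le_rpow (by positivity) (by gcongr; exact le_max_right _ _) (by linarith))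
  induction n generalizing b s r with
  | zero =>
    have h := key b s r hr hsr
    have hm : 0 ≤ max r (x b) := hr.trans (le_max_left _ _)
    rw [Real.mul_rpow hK hm] at h
    exact h
  | succ n ih =>
    rw [run, run, ← mean_const_mul]
    exact mean_mono fun i => ih _ (hr.trans (le_max_left _ _)) (key b s r hr hsr)

/-- the maximal function is controlled -/
lemma max_le_A (hK : 0 ≤ K) (hp : 1 < p) (hx0 : ∀ b, 0 ≤ x b) (hx : ∀ b, x b = mean fun i => x (ch b i))
    (hy : ∀ b, y b = mean fun i => y (ch b i)) (hxy : ∀ b, x b ^ p ≤ y b)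
    (hyx : ∀ b, y b ≤ (K * x b) ^ p) (n : ℕ) (b : β) :
    run ch y (fun m _ => m) n b 0 ≤ K ^ p * (p / (p - 1)) ^ p * y b := by
  have h1 := run_compare (ch := ch) hK hp hx0 hyx n b (s := 0) (r := 0) le_rfl
    (by rw [mul_zero, Real.zero_rpow (by linarith)])
  have h2 := doob (ch := ch) hx0 hx hp n b
  have h3 : avg ch n (fun b => x b ^ p) b ≤ y b := (avg_mono hxy n b).trans (avg_self hy n b).le
  have hp1 : 0 < p - 1 := by linarith
  calc run ch y (fun m _ => m) n b 0 ≤ K ^ p * run ch x (fun m _ => m ^ p) n b 0 := h1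
    _ ≤ K ^ p * ((p / (p - 1)) ^ p * y b) := by
        apply mul_le_mul_of_nonneg_left _ (Real.rpow_nonneg hK p)
        exact h2.trans (mul_le_mul_of_nonneg_left h3 (by positivity))
    _ = _ := by ring

end Main

section Improve

variable {y : β → ℝ} {A δ : ℝ}

lemma step_U (hy0 : ∀ b, 0 ≤ y b) (hy : ∀ b, y b = mean fun i => y (ch b i)) (hA1 : 1 ≤ A)
    (hA : ∀ n b, run ch y (fun m _ => m) n b 0 ≤ A * y b) (hδ0 : 0 < δ)
    (hδ : 2 * (Fintype.card ι * A * δ) ≤ 1) (n : ℕ) (b : β) {s : ℝ} (hs : 0 < s)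
    (hb : y b ≤ Fintype.card ι * s) :
    (1 - Fintype.card ι * A * δ) * run ch y (fun m _ => m ^ (1 + δ)) n b s ≤
      s ^ δ * run ch y (fun m _ => m) n b s - Fintype.card ι * A * δ * s ^ (1 + δ) := by
  have hM1 : (1 : ℝ) ≤ Fintype.card ι := one_le_card
  have hδ1 : δ ≤ 1 := by
    have : 1 ≤ (Fintype.card ι : ℝ) * A := by nlinarith
    nlinarith
  have e1 : ∀ t : ℝ, 0 < t → t ^ (1 + δ) = t ^ δ * t := fun t ht => by
    rw [Real.rpow_add ht, Real.rpow_one]; ring
  induction n generalizing b s with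
  | zero =>
    simp only [run]
    rcases le_total (y b) s with h | h
    · rw [max_eq_left h, e1 s hs]
      apply le_of_eq; ring
    · rw [max_eq_right h]
      have h1 := scalar hδ0 hδ1 hs h hb
      have hy' : 0 < y b := hs.trans_le h
      have h2 : 0 ≤ y b ^ (1 + δ) - s ^ (1 + δ) :=
        sub_nonneg.2 (Real.rpow_le_rpow hs.le h (by linarith))
      have h3 : Fintype.card ι * δ * (y b ^ (1 + δ) - s ^ (1 + δ)) ≤
          Fintype.card ι * A * δ * (y b ^ (1 + δ) - s ^ (1 + δ)) := by
        apply mul_le_mul_of_nonneg_right _ h2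
        nlinarith [mul_nonneg (by linarith : (0:ℝ) ≤ Fintype.card ι) hδ0.le]
      have h4 : y b ^ (1 + δ) = y b ^ δ * y b := e1 _ hy'
      nlinarith
  | succ n ih =>
    have hch : ∀ i, y (ch b i) ≤ Fintype.card ι * y b := by
      intro i
      rw [hy b]
      exact le_mean (fun j => hy0 _) i
    rcases le_total (y b) s with h | h
    · simp only [run]
      rw [max_eq_left h]
      rw [← mean_const_mul, ← mean_const_mul]
      have h1 : (mean fun i => (1 - Fintype.card ι * A * δ) * run ch y (fun m _ => m ^ (1 + δ)) n (ch b i) s) ≤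
          mean fun i => (s ^ δ * run ch y (fun m _ => m) n (ch b i) s + -(Fintype.card ι * A * δ * s ^ (1 + δ))) := by
        apply mean_mono
        intro i
        have := ih (ch b i) hs ((hch i).trans (by gcongr))
        linarith
      rw [mean_add, mean_const] at h1
      linarith
    · have hy' : 0 < y b := hs.trans_le h
      have hW : run ch y (fun m _ => m) (n + 1) b s = run ch y (fun m _ => m) (n + 1) b 0 := by
        simp only [run]
        rw [max_eq_right h, max_eq_right (hy0 b)]
      have hWle := hA (n + 1) b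
      rw [← hW] at hWle
      have h1 : (1 - Fintype.card ι * A * δ) * run ch y (fun m _ => m ^ (1 + δ)) (n + 1) b s ≤
          y b ^ δ * run ch y (fun m _ => m) (n + 1) b s - Fintype.card ι * A * δ * y b ^ (1 + δ) := by
        simp only [run]
        rw [max_eq_right h, ← mean_const_mul, ← mean_const_mul]
        have h2 : (mean fun i => (1 - Fintype.card ι * A * δ) *
            run ch y (fun m _ => m ^ (1 + δ)) n (ch b i) (y b)) ≤
            mean fun i => (y b ^ δ * run ch y (fun m _ => m) n (ch b i) (y b) +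
              -(Fintype.card ι * A * δ * y b ^ (1 + δ))) := by
          apply mean_mono
          intro i
          have := ih (ch b i) hy' (hch i)
          linarith
        rw [mean_add, mean_const] at h2
        linarith
      refine h1.trans ?_
      have h3 := scalar hδ0 hδ1 hs h hb
      have h4 : 0 ≤ y b ^ δ - s ^ δ := sub_nonneg.2 (Real.rpow_le_rpow hs.le h hδ0.le)
      have h5 := mul_le_mul_of_nonneg_left hWle h4
      have h6 : A * ((y b ^ δ - s ^ δ) * y b) ≤ A * (Fintype.card ι * δ * (y b ^ (1 + δ) - s ^ (1 + δ))) :=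
        mul_le_mul_of_nonneg_left h3 (by linarith)
      nlinarith

lemma step_V (hy0 : ∀ b, 0 ≤ y b) (hy : ∀ b, y b = mean fun i => y (ch b i)) (hδ0 : 0 < δ)
    (hδ1 : δ ≤ 1) (n : ℕ) (b : β) {s : ℝ} (hs : 0 < s) (hb : y b ≤ Fintype.card ι * s) :
    run ch y (fun m v => m ^ δ * v) n b s ≤
      s ^ δ * y b + Fintype.card ι * δ * (run ch y (fun m _ => m ^ (1 + δ)) n b s - s ^ (1 + δ)) := by
  have e1 : ∀ t : ℝ, 0 < t → t ^ (1 + δ) = t ^ δ * t := fun t ht => by
    rw [Real.rpow_add ht, Real.rpow_one]; ring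
  induction n generalizing b s with
  | zero =>
    simp only [run]
    rcases le_total (y b) s with h | h
    · rw [max_eq_left h]
      apply le_of_eq; ring
    · rw [max_eq_right h]
      have h1 := scalar hδ0 hδ1 hs h hb
      linarith
  | succ n ih =>
    have hch : ∀ i, y (ch b i) ≤ Fintype.card ι * y b := by
      intro i
      rw [hy b]
      exact le_mean (fun j => hy0 _) i
    rcases le_total (y b) s with h | h
    · simp only [run]
      rw [max_eq_left h]
      have h1 : (mean fun i => run ch y (fun m v => m ^ δ * v) n (ch b i) s) ≤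
          mean fun i => (s ^ δ * y (ch b i) + (Fintype.card ι * δ * run ch y (fun m _ => m ^ (1 + δ)) n (ch b i) s +
            -(Fintype.card ι * δ * s ^ (1 + δ)))) := by
        apply mean_mono
        intro i
        have := ih (ch b i) hs ((hch i).trans (by gcongr))
        linarith
      rw [mean_add, mean_add, mean_const_mul, mean_const_mul, mean_const, ← hy b] at h1
      linarith
    · have hy' : 0 < y b := hs.trans_le h
      simp only [run]
      rw [max_eq_right h]
      have h1 : (mean fun i => run ch y (fun m v => m ^ δ * v) n (ch b i) (y b)) ≤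
          mean fun i => (y b ^ δ * y (ch b i) +
            (Fintype.card ι * δ * run ch y (fun m _ => m ^ (1 + δ)) n (ch b i) (y b) +
            -(Fintype.card ι * δ * y b ^ (1 + δ)))) := by
        apply mean_mono
        intro i
        have := ih (ch b i) hy' (hch i)
        linarith
      rw [mean_add, mean_add, mean_const_mul, mean_const_mul, mean_const, ← hy b] at h1
      have h3 := scalar hδ0 hδ1 hs h hb
      linarith

lemma avg_le_run (hy0 : ∀ b, 0 ≤ y b) (hδ0 : 0 < δ) (n : ℕ) (b : β) (s : ℝ) :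
    avg ch n (fun b => y b ^ (1 + δ)) b ≤ run ch y (fun m v => m ^ δ * v) n b s := by
  induction n generalizing b s with
  | zero =>
    simp only [avg, run]
    rcases (hy0 b).eq_or_lt with h | h
    · rw [← h, Real.zero_rpow (by linarith), mul_zero]
    · rw [Real.rpow_add h, Real.rpow_one, mul_comm]
      apply mul_le_mul_of_nonneg_right _ h.le
      exact Real.rpow_le_rpow h.le (le_max_right _ _) hδ0.le
  | succ n ih => exact mean_mono fun i => ih _ _

theorem improve (hy0 : ∀ b, 0 ≤ y b) (hy : ∀ b, y b = mean fun i => y (ch b i)) (hA1 : 1 ≤ A)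
    (hA : ∀ n b, run ch y (fun m _ => m) n b 0 ≤ A * y b) (hδ0 : 0 < δ)
    (hδ : 2 * (Fintype.card ι * A * δ) ≤ 1) (n : ℕ) {b : β} (hb : 0 < y b) :
    avg ch n (fun b => y b ^ (1 + δ)) b ≤ 2 * y b ^ (1 + δ) := by
  have hM1 : (1 : ℝ) ≤ Fintype.card ι := one_le_card
  have hδ1 : δ ≤ 1 := by
    have : 1 ≤ (Fintype.card ι : ℝ) * A := by nlinarith
    nlinarith
  have hbM : y b ≤ Fintype.card ι * y b := by nlinarith
  have h1 := step_U hy0 hy hA1 hA hδ0 hδ n b hb hbM
  have h2 := step_V hy0 hy hδ0 hδ1 n b hb hbM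
  have h3 := avg_le_run (ch := ch) hy0 hδ0 n b (y b)
  have hW : run ch y (fun m _ => m) n b (y b) = run ch y (fun m _ => m) n b 0 := by
    cases n <;> simp only [run] <;> rw [max_self, max_eq_right (hy0 b)]
  rw [hW] at h1
  have h4 := hA n b
  have e1 : y b ^ (1 + δ) = y b ^ δ * y b := by rw [Real.rpow_add hb, Real.rpow_one]; ring
  have hyδ : 0 < y b ^ δ := Real.rpow_pos_of_pos hb δ
  have h5 := mul_le_mul_of_nonneg_left h4 hyδ.le
  set U := run ch y (fun m _ => m ^ (1 + δ)) n b (y b) with hU
  set Y := y b ^ (1 + δ) with hY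
  set κ := (Fintype.card ι : ℝ) * A * δ with hκ
  have hY0 : 0 < Y := Real.rpow_pos_of_pos hb _
  have h6 : (1 - κ) * U ≤ (A - κ) * Y := by
    have : y b ^ δ * (A * y b) = A * Y := by rw [e1]; ring
    linarith
  have hκ0 : 0 < κ := by positivity
  -- `M δ (U - Y) ≤ Y`
  have h7 : Fintype.card ι * δ * (U - Y) ≤ Y := by
    have h8 : (1 - κ) * (U - Y) ≤ (A - 1) * Y := by linarith
    have h9 : (1 - κ) * (Fintype.card ι * δ * (U - Y)) ≤ (1 - κ) * Y := by
      have h10 : Fintype.card ι * δ * ((1 - κ) * (U - Y)) ≤ Fintype.card ι * δ * ((A - 1) * Y) :=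
        mul_le_mul_of_nonneg_left h8 (by positivity)
      have h11 : Fintype.card ι * δ * ((A - 1) * Y) ≤ κ * Y := by
        have : Fintype.card ι * δ * (A - 1) ≤ κ := by
          rw [hκ]
          have : 0 ≤ (Fintype.card ι : ℝ) * δ := by positivity
          nlinarith
        nlinarith
      nlinarith
    exact le_of_mul_le_mul_left h9 (by linarith)
  have h12 : y b ^ δ * y b = Y := e1.symm
  linarith

end Improve

end Pool.Agent.T3H29.RH
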