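import Pool.Agent.T3H29.RH.Defs
import Pool.Agent.T3H29.RH.Tree

/-!
# Dyadic subcubes
-/

set_option autoImplicit false
open MeasureTheory Set Filter Topology
open scoped ENNReal

namespace Pool.Agent.T3H29.RH

variable {d : ℕ}

/-- cubes as pairs (lower corner, side length) -/
abbrev Cb (d : ℕ) : Type := {b : (Fin d → ℝ) × ℝ // 0 < b.2}

/-- half-open cube -/
def H (b : Cb d) : Set (Fin d → ℝ) := Set.pi univ fun i => Ico (b.1.1 i) (b.1.1 i + b.1.2)

/-- children -/
noncomputable def chd (b : Cb d) (s : Fin d → Bool) : Cb d :=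
  ⟨(fun i => b.1.1 i + (if s i then b.1.2 / 2 else 0), b.1.2 / 2), half_pos b.2⟩

/-- the child containing a point -/
noncomputable def sel (b : Cb d) (z : Fin d → ℝ) : Fin d → Bool := fun i => decide (b.1.1 i + b.1.2 / 2 ≤ z i)

lemma mem_H {b : Cb d} {z : Fin d → ℝ} : z ∈ H b ↔ ∀ i, b.1.1 i ≤ z i ∧ z i < b.1.1 i + b.1.2 := by
  simp [H, Set.mem_pi]

lemma measurableSet_H (b : Cb d) : MeasurableSet (H b) :=
  MeasurableSet.univ_pi fun _ => measurableSet_Ico

lemma mem_chd_iff {b : Cb d} {z : Fin d → ℝ} {s : Fin d → Bool} :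
    z ∈ H (chd b s) ↔ z ∈ H b ∧ sel b z = s := by
  have hb := b.2
  simp only [mem_H, chd]
  constructor
  · intro h
    constructor
    · intro i
      have := h i
      split_ifs at this <;> constructor <;> linarith
    · funext i
      have := h i
      simp only [sel]
      cases hs : s i
      · rw [hs] at this
        simp only [Bool.false_eq_true, if_false, add_zero] at this
        simp only [decide_eq_false_iff_not, not_le]
        linarith
      · rw [hs] at this
        simp only [if_true] at this
        simp only [decide_eq_true_eq]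
        exact this.1
  · rintro ⟨h, rfl⟩ i
    have := h i
    by_cases hi : b.1.1 i + b.1.2 / 2 ≤ z i
    · rw [show sel b z i = true from decide_eq_true hi, if_pos rfl]
      constructor <;> linarith
    · rw [show sel b z i = false from decide_eq_false hi, if_neg (by simp)]
      push Not at hi
      constructor <;> linarith

lemma chd_subset (b : Cb d) (s : Fin d → Bool) : H (chd b s) ⊆ H b := fun _ hz => (mem_chd_iff.1 hz).1

lemma H_eq_iUnion (b : Cb d) : H b = ⋃ s, H (chd b s) := by
  ext z
  simp only [mem_iUnion, mem_chd_iff]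
  exact ⟨fun h => ⟨_, h, rfl⟩, fun ⟨_, h, _⟩ => h⟩

lemma pairwise_disjoint (b : Cb d) : Pairwise (Function.onFun Disjoint fun s => H (chd b s)) := by
  intro s t hst
  rw [Function.onFun, Set.disjoint_left]
  intro z hz hz'
  exact hst ((mem_chd_iff.1 hz).2.symm.trans (mem_chd_iff.1 hz').2)

lemma lintegral_H (b : Cb d) (f : (Fin d → ℝ) → ℝ≥0∞) :
    ∫⁻ x in H b, f x = ∑ s, ∫⁻ x in H (chd b s), f x := by
  conv_lhs => rw [H_eq_iUnion b]
  rw [lintegral_iUnion (fun s => measurableSet_H _) (pairwise_disjoint b), tsum_fintype]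

lemma volume_H (b : Cb d) : volume (H b) = ENNReal.ofReal b.1.2 ^ d := by
  rw [H, Real.volume_pi_Ico]
  simp

lemma volume_H' (b : Cb d) : volume (H b) = ENNReal.ofReal (b.1.2 ^ d) := by
  rw [volume_H, ENNReal.ofReal_pow b.2.le]

lemma volume_H_ne_zero (b : Cb d) : volume (H b) ≠ 0 := by
  rw [volume_H]
  exact pow_ne_zero _ (by rw [Ne, ENNReal.ofReal_eq_zero, not_le]; exact b.2)

lemma volume_H_ne_top (b : Cb d) : volume (H b) ≠ ⊤ := by
  rw [volume_H']; exact ENNReal.ofReal_ne_top

lemma H_ae_eq (b : Cb d) : H b =ᵐ[volume] cube b.1.1 b.1.2 := by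
  have h : cube b.1.1 b.1.2 = Icc b.1.1 (fun i => b.1.1 i + b.1.2) := by
    ext x
    simp only [cube, mem_ofPred_eq, mem_Icc, Pi.le_def, forall_and]
  rw [h]
  exact Measure.univ_pi_Ico_ae_eq_Icc

lemma cavg_eq (f : (Fin d → ℝ) → ℝ≥0∞) (b : Cb d) : cavg f b.1.1 b.1.2 = (∫⁻ x in H b, f x) / volume (H b) := by
  rw [cavg, measure_congr (H_ae_eq b), setLIntegral_congr (H_ae_eq b)]

/-- the closed ball which equals the cube -/
lemma closedBall_eq (b : Cb d) :
    Metric.closedBall (fun i => b.1.1 i + b.1.2 / 2) (b.1.2 / 2) = cube b.1.1 b.1.2 := by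
  ext x
  rw [Metric.mem_closedBall, dist_pi_le_iff (half_pos b.2).le]
  simp only [cube, mem_ofPred_eq, Real.dist_eq, abs_le]
  refine forall_congr' fun i => ?_
  constructor <;> rintro ⟨h1, h2⟩ <;> constructor <;> linarith

/-! ### localization -/

/-- the cube of generation `n` containing the point -/
noncomputable def loc : ℕ → Cb d → (Fin d → ℝ) → Cb d
  | 0, b, _ => b
  | n + 1, b, z => loc n (chd b (sel b z)) z

lemma mem_loc {b : Cb d} {z : Fin d → ℝ} (hz : z ∈ H b) (n : ℕ) : z ∈ H (loc n b z) := by
  induction n generalizing b with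
  | zero => exact hz
  | succ n ih => exact ih (mem_chd_iff.2 ⟨hz, rfl⟩)

lemma loc_subset (b : Cb d) (z : Fin d → ℝ) (n : ℕ) : H (loc n b z) ⊆ H b := by
  induction n generalizing b with
  | zero => exact subset_rfl
  | succ n ih => exact (ih _).trans (chd_subset b _)

lemma side_loc (b : Cb d) (z : Fin d → ℝ) (n : ℕ) : (loc n b z).1.2 = b.1.2 / 2 ^ n := by
  induction n generalizing b with
  | zero => simp [loc]
  | succ n ih =>
    rw [loc, ih, chd, pow_succ]
    field_simp

lemma measurable_sel (b : Cb d) : Measurable (sel b) := by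
  rw [measurable_pi_iff]
  intro i
  apply measurable_to_bool
  have : (fun z => sel b z i) ⁻¹' {true} = {z | b.1.1 i + b.1.2 / 2 ≤ z i} := by
    ext z; simp [sel]
  rw [this]
  exact measurableSet_le measurable_const (measurable_pi_apply i)

lemma measurable_loc (g : Cb d → ℝ≥0∞) (n : ℕ) (b : Cb d) : Measurable fun z => g (loc n b z) := by
  induction n generalizing b with
  | zero => simp only [loc]; exact measurable_const
  | succ n ih =>
    have h : Measurable fun q : (Fin d → Bool) × (Fin d → ℝ) => g (loc n (chd b q.1) q.2) :=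
      measurable_from_prod_countable_right fun s => ih (chd b s)
    exact h.comp ((measurable_sel b).prodMk measurable_id)

/-- integral of a function of the localized cube -/
lemma lintegral_loc (g : Cb d → ℝ) (hg : ∀ b, 0 ≤ g b) (n : ℕ) (b : Cb d) :
    ∫⁻ z in H b, ENNReal.ofReal (g (loc n b z)) = ENNReal.ofReal (avg chd n g b * b.1.2 ^ d) := by
  have havg : ∀ n b, 0 ≤ avg (chd (d := d)) n g b := by
    intro n
    induction n with
    | zero => exact hg
    | succ n ih => exact fun b => div_nonneg (Finset.sum_nonneg fun i _ => ih _) (by positivity)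
  induction n generalizing b with
  | zero =>
    simp only [loc, avg]
    rw [setLIntegral_const, volume_H', ENNReal.ofReal_mul (hg b)]
  | succ n ih =>
    rw [lintegral_H]
    have h1 : ∀ s, ∫⁻ z in H (chd b s), ENNReal.ofReal (g (loc (n + 1) b z)) =
        ENNReal.ofReal (avg chd n g (chd b s) * (chd b s).1.2 ^ d) := by
      intro s
      rw [← ih (chd b s)]
      apply setLIntegral_congr_fun (measurableSet_H _)
      intro z hz
      simp only [loc]
      rw [(mem_chd_iff.1 hz).2]
    rw [Finset.sum_congr rfl fun s _ => h1 s, ← ENNReal.ofReal_sum_of_nonneg]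
    · congr 1
      have h2 : ∀ s, (chd b s).1.2 ^ d = b.1.2 ^ d / 2 ^ d := fun s => by
        simp only [chd, div_pow]
      simp_rw [h2]
      rw [← Finset.sum_mul, avg, mean]
      simp only [Fintype.card_pi, Fintype.card_bool, Finset.prod_const, Finset.card_univ, Fintype.card_fin,
        Nat.cast_pow, Nat.cast_ofNat]
      ring
    · intro s _
      exact mul_nonneg (havg _ _) (pow_nonneg (chd b s).2.le _)

end Pool.Agent.T3H29.RH
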