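import Mathlib

/-!
# Weights and the reverse Hölder constant
-/

set_option autoImplicit false
open MeasureTheory
open scoped ENNReal

namespace Pool.Agent.T3H29.RH

/-- the closed axis-parallel cube with lower corner `a` and side length `ℓ` -/
def cube {d : ℕ} (a : Fin d → ℝ) (ℓ : ℝ) : Set (Fin d → ℝ) := {x | ∀ i, a i ≤ x i ∧ x i ≤ a i + ℓ}

/-- the average over this cube of a function with values in `[0, ∞]` -/
noncomputable def cavg {d : ℕ} (f : (Fin d → ℝ) → ℝ≥0∞) (a : Fin d → ℝ) (ℓ : ℝ) : ℝ≥0∞ :=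
  (∫⁻ x in cube a ℓ, f x) / volume (cube a ℓ)

/-- weights: locally integrable positive functions on `ℝ^d` -/
structure IsWeight {d : ℕ} (w : (Fin d → ℝ) → ℝ) : Prop where
  pos : ∀ x, 0 < w x
  locInt : LocallyIntegrable w

/-- `[w]_{RH_p}`, the supremum over all cubes of `⟨w^p⟩^{1/p} ⟨w⟩^{-1}` -/
noncomputable def rhConst {d : ℕ} (p : ℝ) (w : (Fin d → ℝ) → ℝ) : ℝ≥0∞ :=
  ⨆ (a : Fin d → ℝ) (ℓ : ℝ) (_ : 0 < ℓ),
    (cavg (fun x => ENNReal.ofReal (w x) ^ p) a ℓ) ^ (1 / p) *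
      (cavg (fun x => ENNReal.ofReal (w x)) a ℓ)⁻¹

end Pool.Agent.T3H29.RH
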