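import Pool.Agent.T3H29.RH.Cubes

/-!
# The reverse Hölder inequality with explicit exponent
-/

set_option autoImplicit false
open MeasureTheory Set Filter Topology
open scoped ENNReal

namespace Pool.Agent.T3H29.RH

variable {d : ℕ}

/-- mass of a nonnegative function on a cube divided by the volume, as a real number -/
noncomputable def rav (f : (Fin d → ℝ) → ℝ≥0∞) (b : Cb d) : ℝ := (∫⁻ x in H b, f x).toReal / b.1.2 ^ d

lemma rav_nonneg (f : (Fin d → ℝ) → ℝ≥0∞) (b : Cb d) : 0 ≤ rav f b :=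
  div_nonneg ENNReal.toReal_nonneg (pow_nonneg b.2.le _)

lemma ofReal_rav {f : (Fin d → ℝ) → ℝ≥0∞} {b : Cb d} (hf : ∫⁻ x in H b, f x ≠ ⊤) :
    ENNReal.ofReal (rav f b) = (∫⁻ x in H b, f x) / volume (H b) := by
  rw [rav, ENNReal.ofReal_div_of_pos (pow_pos b.2 _), ENNReal.ofReal_toReal hf, volume_H']

lemma ofReal_rav' {f : (Fin d → ℝ) → ℝ≥0∞} {b : Cb d} (hf : ∫⁻ x in H b, f x ≠ ⊤) :
    ENNReal.ofReal (rav f b) = cavg f b.1.1 b.1.2 := by
  rw [ofReal_rav hf, cavg_eq]

lemma rav_mean {f : (Fin d → ℝ) → ℝ≥0∞} (hf : ∀ b : Cb d, ∫⁻ x in H b, f x ≠ ⊤) (b : Cb d) :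
    rav f b = mean fun s => rav f (chd b s) := by
  unfold rav mean
  rw [lintegral_H b f, ENNReal.toReal_sum (fun s _ => hf _)]
  have h2 : ∀ s, (chd b s).1.2 ^ d = b.1.2 ^ d / 2 ^ d := fun s => by
    simp only [chd, div_pow]
  simp_rw [h2]
  rw [← Finset.sum_div]
  simp only [Fintype.card_pi, Fintype.card_bool, Finset.prod_const, Finset.card_univ, Fintype.card_fin,
    Nat.cast_pow, Nat.cast_ofNat]
  have := b.2
  field_simp

section
variable {p : ℝ} {w : (Fin d → ℝ) → ℝ}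

lemma isCompact_cube (a : Fin d → ℝ) (ℓ : ℝ) : IsCompact (cube a ℓ) := by
  have h : cube a ℓ = Icc a (fun i => a i + ℓ) := by
    ext x
    simp only [cube, mem_ofPred_eq, mem_Icc, Pi.le_def, forall_and]
  rw [h]
  exact isCompact_Icc

lemma w_aemeasurable (hw : IsWeight w) : AEMeasurable w :=
  hw.locInt.aestronglyMeasurable.aemeasurable

lemma lint_w_ne_top (hw : IsWeight w) (b : Cb d) : ∫⁻ x in H b, ENNReal.ofReal (w x) ≠ ⊤ := by
  rw [setLIntegral_congr (H_ae_eq b)]
  have h := hw.locInt.integrableOn_isCompact (isCompact_cube b.1.1 b.1.2)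
  have h2 := h.lintegral_lt_top
  exact h2.ne

lemma lint_w_ne_zero (hw : IsWeight w) (b : Cb d) : ∫⁻ x in H b, ENNReal.ofReal (w x) ≠ 0 := by
  have h1 : AEMeasurable (fun x => ENNReal.ofReal (w x)) (volume.restrict (H b)) :=
    ((w_aemeasurable hw).restrict).ennreal_ofReal
  intro h
  rw [lintegral_eq_zero_iff' h1] at h
  have h3 : (volume.restrict (H b)) univ = 0 := by
    rw [← Filter.eventually_false_iff_eq_bot.trans ae_eq_bot |>.trans Measure.measure_univ_eq_zero.symm]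
    filter_upwards [h] with x hx
    simp only [Pi.zero_apply, ENNReal.ofReal_eq_zero] at hx
    exact absurd (hw.pos x) (not_lt.2 hx)
  rw [Measure.restrict_apply_univ] at h3
  exact volume_H_ne_zero b h3

/-- the reverse Hölder inequality on a cube -/
lemma rh_cube (hp : 1 < p) (hw : IsWeight w) (b : Cb d) :
    (∫⁻ x in H b, ENNReal.ofReal (w x) ^ p) / volume (H b) ≤
      (rhConst p w * ((∫⁻ x in H b, ENNReal.ofReal (w x)) / volume (H b))) ^ p := by
  have h1 : (cavg (fun x => ENNReal.ofReal (w x) ^ p) b.1.1 b.1.2) ^ (1 / p) *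
      (cavg (fun x => ENNReal.ofReal (w x)) b.1.1 b.1.2)⁻¹ ≤ rhConst p w :=
    le_iSup_of_le b.1.1 (le_iSup_of_le b.1.2 (le_iSup_of_le b.2 le_rfl))
  rw [cavg_eq, cavg_eq] at h1
  set X := (∫⁻ x in H b, ENNReal.ofReal (w x)) / volume (H b) with hX
  have hX0 : X ≠ 0 := ENNReal.div_ne_zero.2 ⟨lint_w_ne_zero hw b, volume_H_ne_top b⟩
  have hXt : X ≠ ⊤ := ENNReal.div_ne_top (lint_w_ne_top hw b) (volume_H_ne_zero b)
  rw [← div_eq_mul_inv, ENNReal.div_le_iff hX0 hXt] at h1
  have h2 := ENNReal.rpow_le_rpow h1 (by linarith : 0 ≤ p)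
  rwa [← ENNReal.rpow_mul, one_div, inv_mul_cancel₀ (by linarith), ENNReal.rpow_one] at h2

lemma lint_wp_ne_top (hp : 1 < p) (hw : IsWeight w) (hR : rhConst p w < ⊤) (b : Cb d) :
    ∫⁻ x in H b, ENNReal.ofReal (w x) ^ p ≠ ⊤ := by
  have h1 := rh_cube hp hw b
  have h2 : (rhConst p w * ((∫⁻ x in H b, ENNReal.ofReal (w x)) / volume (H b))) ^ p ≠ ⊤ :=
    ENNReal.rpow_ne_top_of_nonneg (by linarith)
      (ENNReal.mul_ne_top hR.ne (ENNReal.div_ne_top (lint_w_ne_top hw b) (volume_H_ne_zero b)))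
  have h3 := ne_top_of_le_ne_top h2 h1
  intro h
  rw [h, ENNReal.top_div_of_ne_top (volume_H_ne_top b)] at h3
  exact h3 rfl

/-- Jensen's inequality -/
lemma jensen_cube (hp : 1 < p) (hw : IsWeight w) (hR : rhConst p w < ⊤) (b : Cb d) :
    rav (fun x => ENNReal.ofReal (w x)) b ^ p ≤ rav (fun x => ENNReal.ofReal (w x) ^ p) b := by
  have hpq : p.HolderConjugate (p / (p - 1)) := Real.HolderConjugate.conjExponent hp
  have hm : AEMeasurable (fun x => ENNReal.ofReal (w x)) (volume.restrict (H b)) :=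
    ((w_aemeasurable hw).restrict).ennreal_ofReal
  have h1 := ENNReal.lintegral_mul_le_Lp_mul_Lq (volume.restrict (H b)) hpq hm
    (aemeasurable_const (b := (1 : ℝ≥0∞)))
  simp only [Pi.mul_apply, mul_one, ENNReal.one_rpow, lintegral_one, Measure.restrict_apply_univ] at h1
  set X := ∫⁻ x in H b, ENNReal.ofReal (w x) with hX
  set Y := ∫⁻ x in H b, ENNReal.ofReal (w x) ^ p with hY
  have hYt : Y ≠ ⊤ := lint_wp_ne_top hp hw hR b
  have hp0 : 0 < p := by linarith
  have h2 : X.toReal ≤ Y.toReal ^ (1 / p) * (b.1.2 ^ d) ^ (1 / (p / (p - 1))) := by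
    have h3 := ENNReal.toReal_mono (ENNReal.mul_ne_top
      (ENNReal.rpow_ne_top_of_nonneg (by positivity) hYt)
      (ENNReal.rpow_ne_top_of_nonneg hpq.symm.one_div_nonneg (volume_H_ne_top b))) h1
    rw [ENNReal.toReal_mul, ← ENNReal.toReal_rpow, ← ENNReal.toReal_rpow, volume_H',
      ENNReal.toReal_ofReal (pow_nonneg b.2.le _)] at h3
    exact h3
  have hV : 0 < b.1.2 ^ d := pow_pos b.2 _
  have h4 : X.toReal ^ p ≤ Y.toReal * (b.1.2 ^ d) ^ (p - 1) := by
    calc X.toReal ^ p ≤ (Y.toReal ^ (1 / p) * (b.1.2 ^ d) ^ (1 / (p / (p - 1)))) ^ p :=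
          Real.rpow_le_rpow ENNReal.toReal_nonneg h2 hp0.le
      _ = Y.toReal * (b.1.2 ^ d) ^ (p - 1) := by
          rw [Real.mul_rpow (Real.rpow_nonneg ENNReal.toReal_nonneg _) (Real.rpow_nonneg hV.le _),
            ← Real.rpow_mul ENNReal.toReal_nonneg, ← Real.rpow_mul hV.le]
          have e1 : 1 / p * p = 1 := by field_simp
          have hp1 : p - 1 ≠ 0 := by linarith
          have e2 : 1 / (p / (p - 1)) * p = p - 1 := by field_simp
          rw [e1, e2, Real.rpow_one]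
  show (X.toReal / b.1.2 ^ d) ^ p ≤ Y.toReal / b.1.2 ^ d
  rw [Real.div_rpow ENNReal.toReal_nonneg hV.le, div_le_div_iff₀ (Real.rpow_pos_of_pos hV p) hV]
  calc X.toReal ^ p * b.1.2 ^ d ≤ (Y.toReal * (b.1.2 ^ d) ^ (p - 1)) * b.1.2 ^ d :=
        mul_le_mul_of_nonneg_right h4 hV.le
    _ = Y.toReal * (b.1.2 ^ d) ^ p := by
        rw [mul_assoc, ← Real.rpow_add_one hV.ne']; congr 2; ring

lemma rh_rav (hp : 1 < p) (hw : IsWeight w) (hR : rhConst p w < ⊤) (b : Cb d) :
    rav (fun x => ENNReal.ofReal (w x) ^ p) b ≤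
      ((rhConst p w).toReal * rav (fun x => ENNReal.ofReal (w x)) b) ^ p := by
  have h1 := rh_cube hp hw b
  rw [← ofReal_rav (lint_w_ne_top hw b), ← ofReal_rav (lint_wp_ne_top hp hw hR b)] at h1
  have h2 : rhConst p w = ENNReal.ofReal (rhConst p w).toReal := (ENNReal.ofReal_toReal hR.ne).symm
  rw [h2, ← ENNReal.ofReal_mul ENNReal.toReal_nonneg, ENNReal.ofReal_rpow_of_nonneg
    (mul_nonneg ENNReal.toReal_nonneg (rav_nonneg _ _)) (by linarith)] at h1
  exact (ENNReal.ofReal_le_ofReal_iff (Real.rpow_nonneg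
    (mul_nonneg ENNReal.toReal_nonneg (rav_nonneg _ _)) _)).1 h1

lemma rav_w_pos (hw : IsWeight w) (b : Cb d) : 0 < rav (fun x => ENNReal.ofReal (w x)) b :=
  div_pos (ENNReal.toReal_pos (lint_w_ne_zero hw b) (lint_w_ne_top hw b)) (pow_pos b.2 _)

/-- Lebesgue differentiation along the dyadic cubes -/
lemma ae_tendsto (b : Cb d) {f : (Fin d → ℝ) → ℝ≥0∞} (hf : AEMeasurable f)
    (hfin : ∀ b : Cb d, ∫⁻ x in H b, f x ≠ ⊤) :
    ∀ᵐ z ∂(volume.restrict (H b)), Tendsto (fun n => ENNReal.ofReal (rav f (loc n b z))) atTop (𝓝 (f z)) := by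
  rw [ae_restrict_iff' (measurableSet_H b)]
  have hF : AEMeasurable ((H b).indicator f) := hf.indicator (measurableSet_H b)
  have hFt : ∫⁻ x, (H b).indicator f x ≠ ⊤ := by
    rw [lintegral_indicator (measurableSet_H b)]; exact hfin b
  have h := (IsUnifLocDoublingMeasure.vitaliFamily (volume : Measure (Fin d → ℝ)) 1).ae_tendsto_lintegral_div hF hFt
  filter_upwards [h] with z hz hzb
  rw [indicator_of_mem hzb] at hz
  -- the balls
  let c : ℕ → (Fin d → ℝ) := fun n i => (loc n b z).1.1 i + (loc n b z).1.2 / 2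
  let r : ℕ → ℝ := fun n => (loc n b z).1.2 / 2
  have hr : ∀ n, 0 < r n := fun n => half_pos (loc n b z).2
  have hrlim : Tendsto r atTop (𝓝[>] 0) := by
    rw [tendsto_nhdsWithin_iff]
    refine ⟨?_, Eventually.of_forall hr⟩
    have h1 : r = fun n => b.1.2 / 2 * (1 / 2) ^ n := by
      funext n
      simp only [r, side_loc]
      rw [one_div, inv_pow]
      field_simp
    rw [h1]
    have h2 : Tendsto (fun n : ℕ => ((1:ℝ) / 2) ^ n) atTop (𝓝 0) :=
      tendsto_pow_atTop_nhds_zero_of_lt_one (by norm_num) (by norm_num)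
    simpa using h2.const_mul (b.1.2 / 2)
  have hball : ∀ n, Metric.closedBall (c n) (r n) = cube (loc n b z).1.1 (loc n b z).1.2 := fun n =>
    closedBall_eq (loc n b z)
  have hmem : ∀ n, z ∈ Metric.closedBall (c n) (1 * r n) := by
    intro n
    rw [one_mul, hball]
    have := mem_H.1 (mem_loc hzb n)
    exact fun i => ⟨(this i).1, (this i).2.le⟩
  have hlim := IsUnifLocDoublingMeasure.tendsto_closedBall_filterAt (μ := (volume : Measure (Fin d → ℝ)))
    (K := 1) (x := z) c r hrlim (Eventually.of_forall hmem)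
  have h3 := hz.comp hlim
  refine h3.congr fun n => ?_
  simp only [Function.comp_apply]
  rw [hball, ofReal_rav (hfin _), measure_congr (H_ae_eq (loc n b z)).symm,
    setLIntegral_congr (H_ae_eq (loc n b z)).symm, setLIntegral_indicator (measurableSet_H b),
    inter_eq_right.2 (loc_subset b z n)]

/-- the reverse Hölder inequality with larger exponent, on half-open cubes -/
theorem gehring_aux (hp : 1 < p) (hw : IsWeight w) (hR : rhConst p w < ⊤) (b : Cb d) {δ : ℝ} (hδ : 0 < δ)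
    (h : 2 * (2 ^ d * ((rhConst p w).toReal ^ p * (p / (p - 1)) ^ p) * δ) ≤ 1) :
    (∫⁻ x in H b, (ENNReal.ofReal (w x) ^ p) ^ (1 + δ)) ≤
      2 * ENNReal.ofReal (rav (fun x => ENNReal.ofReal (w x) ^ p) b) ^ (1 + δ) * volume (H b) := by
  set f : (Fin d → ℝ) → ℝ≥0∞ := fun x => ENNReal.ofReal (w x) ^ p with hf
  set g : (Fin d → ℝ) → ℝ≥0∞ := fun x => ENNReal.ofReal (w x) with hg
  set K := (rhConst p w).toReal with hK
  set A := K ^ p * (p / (p - 1)) ^ p with hA
  have hp1 : 0 < p - 1 := by linarith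
  have hfin : ∀ b : Cb d, ∫⁻ x in H b, f x ≠ ⊤ := lint_wp_ne_top hp hw hR
  have hgfin : ∀ b : Cb d, ∫⁻ x in H b, g x ≠ ⊤ := lint_w_ne_top hw
  have hfm : AEMeasurable f := ((w_aemeasurable hw).ennreal_ofReal).pow_const p
  have hxpos := rav_w_pos hw b
  have hj := jensen_cube hp hw hR
  have hr := rh_rav hp hw hR
  have hypos : 0 < rav f b := lt_of_lt_of_le (Real.rpow_pos_of_pos hxpos p) (hj b)
  -- `K ≥ 1`
  have hK0 : 0 ≤ K := ENNReal.toReal_nonneg
  have hK1 : 1 ≤ K ^ p := by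
    have h1 : rav g b ^ p ≤ K ^ p * rav g b ^ p := by
      rw [← Real.mul_rpow hK0 hxpos.le]; exact (hj b).trans (hr b)
    have h2 : 0 < rav g b ^ p := Real.rpow_pos_of_pos hxpos p
    exact le_of_mul_le_mul_right (by linarith) h2
  have hA1 : 1 ≤ A := by
    have h1 : 1 ≤ (p / (p - 1)) ^ p := Real.one_le_rpow (by rw [one_le_div hp1]; linarith) (by linarith)
    nlinarith
  have hcard : (Fintype.card (Fin d → Bool) : ℝ) = 2 ^ d := by
    simp
  have hmain : ∀ n, avg (chd (d := d)) n (fun b => rav f b ^ (1 + δ)) b ≤ 2 * rav f b ^ (1 + δ) := by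
    intro n
    refine improve (rav_nonneg f) (rav_mean hfin) hA1 (fun n b => ?_) hδ (by rw [hcard]; exact h) n hypos
    exact max_le_A hK0 hp (rav_nonneg g) (rav_mean hgfin) (rav_mean hfin) hj hr n b
  have hint : ∀ n, ∫⁻ z in H b, ENNReal.ofReal (rav f (loc n b z) ^ (1 + δ)) ≤
      2 * ENNReal.ofReal (rav f b) ^ (1 + δ) * volume (H b) := by
    intro n
    rw [lintegral_loc (fun b => rav f b ^ (1 + δ)) (fun b => Real.rpow_nonneg (rav_nonneg f b) _)]
    calc ENNReal.ofReal (avg chd n (fun b => rav f b ^ (1 + δ)) b * b.1.2 ^ d)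
        ≤ ENNReal.ofReal ((2 * rav f b ^ (1 + δ)) * b.1.2 ^ d) := by
          apply ENNReal.ofReal_le_ofReal
          exact mul_le_mul_of_nonneg_right (hmain n) (pow_nonneg b.2.le _)
      _ = 2 * ENNReal.ofReal (rav f b) ^ (1 + δ) * volume (H b) := by
          rw [ENNReal.ofReal_mul (by positivity), ENNReal.ofReal_mul (by norm_num), volume_H',
            ENNReal.ofReal_rpow_of_nonneg (rav_nonneg f b) (by linarith)]
          norm_num
  have hae := ae_tendsto b hfm hfin
  have hfatou := lintegral_liminf_le (μ := volume.restrict (H b)) (u := atTop)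
    (f := fun n z => ENNReal.ofReal (rav f (loc n b z) ^ (1 + δ)))
    (fun n => measurable_loc (fun b => ENNReal.ofReal (rav f b ^ (1 + δ))) n b)
  calc (∫⁻ x in H b, f x ^ (1 + δ))
      = ∫⁻ x in H b, liminf (fun n => ENNReal.ofReal (rav f (loc n b x) ^ (1 + δ))) atTop := by
        apply lintegral_congr_ae
        filter_upwards [hae] with z hz
        symm
        apply Tendsto.liminf_eq
        have h2 := ((ENNReal.continuous_rpow_const (y := 1 + δ)).tendsto _).comp hz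
        refine h2.congr fun n => ?_
        simp only [Function.comp_apply]
        rw [ENNReal.ofReal_rpow_of_nonneg (rav_nonneg f _) (by linarith)]
    _ ≤ liminf (fun n => ∫⁻ x in H b, ENNReal.ofReal (rav f (loc n b x) ^ (1 + δ))) atTop := hfatou
    _ ≤ 2 * ENNReal.ofReal (rav f b) ^ (1 + δ) * volume (H b) :=
        liminf_le_of_frequently_le' (Frequently.of_forall hint)

end

end Pool.Agent.T3H29.RH
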